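import Pool.Agent.MP_c1891a_nt.H79.Spec

/-
Zero estimate at an ordinary point for the derived vectors of simultaneous approximants.
-/

namespace Pool.Agent.MP_c1891a_nt.H21

open Finset Polynomial Pool.Agent.MP_c1891a_nt.H79

namespace ZeroAux

theorem D_mul (a b : PowerSeries ℚ) : D (a * b) = a * D b + b * D a := by
  simp [D, Derivation.leibniz]

theorem D_sub (a b : PowerSeries ℚ) : D (a - b) = D a - D b := by simp [D]

theorem D_sum {ι : Type} (s : Finset ι) (g : ι → PowerSeries ℚ) :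
    D (∑ i ∈ s, g i) = ∑ i ∈ s, D (g i) := by simp [D]

theorem D_coe (p : ℚ[X]) : D (p : PowerSeries ℚ) = ((derivative p : ℚ[X]) : PowerSeries ℚ) :=
  PowerSeries.derivative_coe p

theorem coeff_D (a : PowerSeries ℚ) (j : ℕ) :
    PowerSeries.coeff j (D a) = PowerSeries.coeff (j + 1) a * ((j : ℚ) + 1) :=
  PowerSeries.coeff_derivative a j

theorem mul_D_pow (a : PowerSeries ℚ) (k : ℕ) :
    a * D (a ^ k) = (k : PowerSeries ℚ) * D a * a ^ k := by
  induction k with
  | zero => simp [D]
  | succ k ih =>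
    rw [pow_succ, D_mul]
    push_cast
    linear_combination a * ih

theorem dvd_D {m : ℕ} {a : PowerSeries ℚ} (h : PowerSeries.X ^ m ∣ a) :
    PowerSeries.X ^ (m - 1) ∣ D a := by
  rw [PowerSeries.X_pow_dvd_iff] at h ⊢
  intro j hj
  rw [coeff_D, h _ (by omega), zero_mul]

theorem dvd_iter {m : ℕ} {a : PowerSeries ℚ} (h : PowerSeries.X ^ m ∣ a) (k : ℕ) :
    PowerSeries.X ^ (m - k) ∣ D^[k] a := by
  induction k with
  | zero => simpa using h
  | succ k ih =>
    rw [Function.iterate_succ_apply']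
    exact dvd_D ih

theorem dvd_of_iter (m : ℕ) : ∀ a : PowerSeries ℚ,
    (∀ k < m, PowerSeries.constantCoeff (D^[k] a) = 0) → PowerSeries.X ^ m ∣ a := by
  induction m with
  | zero => intro a _; simp
  | succ m ih =>
    intro a h
    have h1 := ih (D a) fun k hk => h (k + 1) (by omega)
    rw [PowerSeries.X_pow_dvd_iff] at h1 ⊢
    intro j hj
    rcases j with _ | j
    · simpa using h 0 (by omega)
    · have h2 := h1 j (by omega)
      rw [coeff_D] at h2
      exact (mul_eq_zero.1 h2).resolve_right (by positivity)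

theorem RR_coe {r : ℕ} (T : ℚ[X]) (A : Fin (r + 1) → Fin (r + 1) → ℚ[X])
    (P : Fin (r + 1) → ℚ[X]) (k : ℕ) (i : Fin (r + 1)) :
    ((RR T A P (k + 1) i : ℚ[X]) : PowerSeries ℚ) =
      (T : PowerSeries ℚ) * D (RR T A P k i) -
        (k : PowerSeries ℚ) * D T * (RR T A P k i : PowerSeries ℚ) -
        ∑ j, (A i j : PowerSeries ℚ) * (RR T A P k j : PowerSeries ℚ) := by
  have e : ∀ p : ℚ[X], (p : PowerSeries ℚ) = Polynomial.coeToPowerSeries.ringHom p :=
    fun _ => rfl
  rw [D_coe, D_coe]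
  simp only [RR, e, map_sub, map_mul, map_sum, map_natCast]

/-- the error terms of the derived vectors vanish to a high order. -/
theorem err_dvd {r : ℕ} {f : Fin (r + 1) → PowerSeries ℚ} {T : ℚ[X]}
    {A : Fin (r + 1) → Fin (r + 1) → ℚ[X]} (hS : Sys f T A) {n e : ℕ} {Q : ℚ[X]}
    {P : Fin (r + 1) → ℚ[X]} (hP : Pade f n e Q P) (k : ℕ) (i : Fin (r + 1)) :
    PowerSeries.X ^ (n + e + 1 - k) ∣
      (T : PowerSeries ℚ) ^ k * D^[k] (Q : PowerSeries ℚ) * f i -
        (RR T A P k i : PowerSeries ℚ) := by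
  induction k generalizing i with
  | zero =>
    rw [PowerSeries.X_pow_dvd_iff]
    intro j hj
    simpa [RR] using hP.2.2.2 i j (by omega)
  | succ k ih =>
    set E : Fin (r + 1) → PowerSeries ℚ := fun i =>
      (T : PowerSeries ℚ) ^ k * D^[k] (Q : PowerSeries ℚ) * f i -
        (RR T A P k i : PowerSeries ℚ) with hE
    have key : (T : PowerSeries ℚ) ^ (k + 1) * D^[k + 1] (Q : PowerSeries ℚ) * f i -
        (RR T A P (k + 1) i : PowerSeries ℚ) =
        (T : PowerSeries ℚ) * D (E i) - (k : PowerSeries ℚ) * D T * E i -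
          ∑ j, (A i j : PowerSeries ℚ) * E j := by
      have h1 := hS.2.2 i
      have h2 := mul_D_pow (T : PowerSeries ℚ) k
      have h3 : ∑ j, (A i j : PowerSeries ℚ) * E j =
          (T : PowerSeries ℚ) ^ k * D^[k] (Q : PowerSeries ℚ) *
            (∑ j, (A i j : PowerSeries ℚ) * f j) -
          ∑ j, (A i j : PowerSeries ℚ) * (RR T A P k j : PowerSeries ℚ) := by
        rw [mul_sum, ← sum_sub_distrib]
        exact sum_congr rfl fun j _ => by simp only [hE]; ring
      rw [h3, ← h1, RR_coe, Function.iterate_succ_apply']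
      simp only [hE, D_sub, D_mul]
      linear_combination (-(f i * D^[k] (Q : PowerSeries ℚ))) * h2
    rw [key]
    have hle : (PowerSeries.X : PowerSeries ℚ) ^ (n + e + 1 - (k + 1)) ∣
        PowerSeries.X ^ (n + e + 1 - k) := pow_dvd_pow _ (by omega)
    refine dvd_sub (dvd_sub ?_ ?_) (dvd_sum fun j _ => ?_)
    · exact Dvd.dvd.mul_left (dvd_D (ih i)) _
    · exact Dvd.dvd.mul_left (hle.trans (ih i)) _
    · exact Dvd.dvd.mul_left (hle.trans (ih j)) _

theorem dvd_of_coe {s : ℕ} {p : ℚ[X]}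
    (h : (PowerSeries.X : PowerSeries ℚ) ^ s ∣ (p : PowerSeries ℚ)) : X ^ s ∣ p := by
  rw [PowerSeries.X_pow_dvd_iff] at h
  rw [Polynomial.X_pow_dvd_iff]
  intro j hj
  simpa using h j hj

theorem det_coe {m : ℕ} (M : Fin m → Fin m → ℚ[X]) :
    (((Matrix.of M).det : ℚ[X]) : PowerSeries ℚ) =
      (Matrix.of fun i k => (M i k : PowerSeries ℚ)).det :=
  (Polynomial.coeToPowerSeries.ringHom (R := ℚ)).map_det (Matrix.of M)

/-- the order of the determinant at the origin. -/
theorem det_dvd {r : ℕ} {f : Fin (r + 1) → PowerSeries ℚ} {T : ℚ[X]}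
    {A : Fin (r + 1) → Fin (r + 1) → ℚ[X]} (hS : Sys f T A) {n e : ℕ} {Q : ℚ[X]}
    {P : Fin (r + 1) → ℚ[X]} (hP : Pade f n e Q P) :
    X ^ (r * (n + e + 1 - r)) ∣ (Matrix.of fun i k : Fin (r + 1) => RR T A P k i).det := by
  apply dvd_of_coe
  rw [det_coe]
  have h0 : ∀ i k : Fin (r + 1), ∃ w : PowerSeries ℚ,
      (RR T A P k i : PowerSeries ℚ) - (if i = 0 then 0 else f i) *
        (RR T A P k 0 : PowerSeries ℚ) =
        (if i = 0 then 1 else PowerSeries.X ^ (n + e + 1 - r)) * w := by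
    intro i k
    by_cases hi : i = 0
    · exact ⟨_, by rw [if_pos hi, if_pos hi, one_mul]⟩
    · rw [if_neg hi, if_neg hi]
      have hle : (PowerSeries.X : PowerSeries ℚ) ^ (n + e + 1 - r) ∣
          PowerSeries.X ^ (n + e + 1 - k) := pow_dvd_pow _ (by have := k.2; omega)
      have h1 := hle.trans (err_dvd hS hP k i)
      have h2 := (hle.trans (err_dvd hS hP k 0)).mul_left (f i)
      have h3 := dvd_sub h2 h1
      rw [hS.1] at h3
      refine (h3.trans (dvd_of_eq ?_))
      ring
  choose w hw using h0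
  have h1 : (Matrix.of fun i k : Fin (r + 1) => (RR T A P k i : PowerSeries ℚ)).det =
      (Matrix.of fun i k : Fin (r + 1) =>
        (if i = 0 then 1 else PowerSeries.X ^ (n + e + 1 - r)) * (Matrix.of w) i k).det := by
    refine Matrix.det_eq_of_forall_row_eq_smul_add_const (fun i => if i = 0 then 0 else f i) 0
      (if_pos rfl) fun i k => ?_
    rw [Matrix.of_apply, Matrix.of_apply, Matrix.of_apply, Matrix.of_apply, Matrix.of_apply,
      ← hw i k, ← hw 0 k]
    simp
  rw [h1, Matrix.det_mul_column, Fin.prod_univ_succ]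
  simp only [if_true, Fin.succ_ne_zero, if_false, one_mul, prod_const, card_univ,
    Fintype.card_fin]
  rw [← pow_mul, mul_comm r]
  exact dvd_mul_right _ _

theorem deg_RR {r : ℕ} {T : ℚ[X]} {A : Fin (r + 1) → Fin (r + 1) → ℚ[X]}
    {P : Fin (r + 1) → ℚ[X]} {n t : ℕ} (hT : T.natDegree ≤ t) (hA : ∀ i j, (A i j).natDegree ≤ t)
    (hP : ∀ i, (P i).natDegree ≤ n) (k : ℕ) (i : Fin (r + 1)) :
    (RR T A P k i).natDegree ≤ n + k * t := by
  induction k generalizing i with
  | zero => simpa [RR] using hP i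
  | succ k ih =>
    have e : n + (k + 1) * t = t + (n + k * t) := by ring
    have hd : ∀ p : ℚ[X], (derivative p).natDegree ≤ p.natDegree :=
      fun p => (natDegree_derivative_le p).trans (Nat.sub_le _ _)
    rw [RR, e]
    refine (natDegree_sub_le _ _).trans (max_le ((natDegree_sub_le _ _).trans (max_le ?_ ?_)) ?_)
    · exact natDegree_mul_le.trans (add_le_add hT ((hd _).trans (ih i)))
    · exact natDegree_mul_le.trans
        (add_le_add ((natDegree_C_mul_le _ _).trans ((hd _).trans hT)) (ih i))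
    · exact natDegree_sum_le_of_forall_le _ _ fun j _ =>
        natDegree_mul_le.trans (add_le_add (hA i j) (ih j))

theorem deg_det {m d : ℕ} (M : Matrix (Fin m) (Fin m) ℚ[X]) (h : ∀ i k, (M i k).natDegree ≤ d) :
    M.det.natDegree ≤ m * d := by
  rw [Matrix.det_apply]
  refine natDegree_sum_le_of_forall_le _ _ fun σ _ => ?_
  refine (natDegree_smul_le _ _).trans ((natDegree_prod_le _ _).trans ?_)
  refine (sum_le_card_nsmul _ _ d fun i _ => h _ _).trans ?_
  simp

theorem RR_comp {r : ℕ} (T : ℚ[X]) (A : Fin (r + 1) → Fin (r + 1) → ℚ[X])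
    (P : Fin (r + 1) → ℚ[X]) (c : ℚ) (k : ℕ) (i : Fin (r + 1)) :
    RR (T.comp (X + C c)) (fun i j => (A i j).comp (X + C c)) (fun i => (P i).comp (X + C c)) k i =
      (RR T A P k i).comp (X + C c) := by
  induction k generalizing i with
  | zero => rfl
  | succ k ih =>
    simp only [RR, ih, sub_comp, mul_comp, Polynomial.sum_comp, C_comp, derivative_comp,
      derivative_add, derivative_X, derivative_C, add_zero, one_mul]

/-- pairing with a solution of the dual system. -/
theorem pair {r : ℕ} (T : ℚ[X]) (A : Fin (r + 1) → Fin (r + 1) → ℚ[X])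
    (P : Fin (r + 1) → ℚ[X]) (y : Fin (r + 1) → PowerSeries ℚ)
    (hy : ∀ i, (T : PowerSeries ℚ) * D (y i) = ∑ j, (-(A j i : PowerSeries ℚ)) * y j) (k : ℕ) :
    ∑ i, y i * (RR T A P k i : PowerSeries ℚ) =
      (T : PowerSeries ℚ) ^ k * D^[k] (∑ i, y i * (P i : PowerSeries ℚ)) := by
  induction k with
  | zero => simp [RR]
  | succ k ih =>
    have h1 : (T : PowerSeries ℚ) * D (∑ i, y i * (RR T A P k i : PowerSeries ℚ)) =
        ∑ i, y i * (RR T A P (k + 1) i : PowerSeries ℚ) +
          (k : PowerSeries ℚ) * D T * ∑ i, y i * (RR T A P k i : PowerSeries ℚ) := by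
      have h2 : ∑ i, (RR T A P k i : PowerSeries ℚ) * ((T : PowerSeries ℚ) * D (y i)) =
          -∑ j, y j * ∑ i, (A j i : PowerSeries ℚ) * (RR T A P k i : PowerSeries ℚ) := by
        simp only [hy, mul_sum]
        rw [sum_comm, ← sum_neg_distrib]
        refine sum_congr rfl fun j _ => ?_
        rw [← sum_neg_distrib]
        exact sum_congr rfl fun i _ => by ring
      have h3 : (T : PowerSeries ℚ) * D (∑ i, y i * (RR T A P k i : PowerSeries ℚ)) =
          ∑ i, y i * ((T : PowerSeries ℚ) * D (RR T A P k i)) +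
            ∑ i, (RR T A P k i : PowerSeries ℚ) * ((T : PowerSeries ℚ) * D (y i)) := by
        rw [D_sum, mul_sum, ← sum_add_distrib]
        exact sum_congr rfl fun i _ => by rw [D_mul]; ring
      rw [h3, h2, mul_sum, ← sum_neg_distrib, ← sum_add_distrib, ← sum_add_distrib]
      exact sum_congr rfl fun i _ => by rw [RR_coe]; ring
    rw [ih, D_mul] at h1
    rw [Function.iterate_succ_apply']
    linear_combination -h1 +
      D^[k] (∑ i, y i * (P i : PowerSeries ℚ)) * mul_D_pow (T : PowerSeries ℚ) k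

/-- the order of the determinant at an ordinary point moved to the origin. -/
theorem ord (h1 : SFund) {r : ℕ} (T : ℚ[X]) (A : Fin (r + 1) → Fin (r + 1) → ℚ[X])
    (P : Fin (r + 1) → ℚ[X]) (hT : T.eval 0 ≠ 0) (φ : Fin (r + 1) → ℚ) (hφ : φ ≠ 0) (J : ℕ)
    (h : ∀ k ≤ J + r, ∑ i, φ i * (RR T A P k i).eval 0 = 0) :
    X ^ (J + 1) ∣ (Matrix.of fun i k : Fin (r + 1) => RR T A P k i).det := by
  have hc : ∀ p : ℚ[X], PowerSeries.constantCoeff (p : PowerSeries ℚ) = p.eval 0 := fun p => by
    rw [Polynomial.constantCoeff_coe, coeff_zero_eq_eval_zero]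
  obtain ⟨y, hy0, hy⟩ := h1 (r + 1) T (fun i j => -(A j i : PowerSeries ℚ)) (by rwa [hc]) φ
  have hp := pair T A P y hy
  set g := ∑ i, y i * (P i : PowerSeries ℚ)
  have hg : PowerSeries.X ^ (J + r + 1) ∣ g := by
    refine dvd_of_iter _ _ fun k hk => ?_
    have h2 := congrArg PowerSeries.constantCoeff (hp k)
    simp only [map_sum, map_mul, map_pow, hc, hy0] at h2
    rw [h k (by omega)] at h2
    exact (mul_eq_zero.1 h2.symm).resolve_left (pow_ne_zero _ hT)
  apply dvd_of_coe
  rw [det_coe]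
  set M : Matrix (Fin (r + 1)) (Fin (r + 1)) (PowerSeries ℚ) :=
    Matrix.of fun i k : Fin (r + 1) => (RR T A P k i : PowerSeries ℚ) with hM
  obtain ⟨i, hi⟩ := Function.ne_iff.1 hφ
  have hu : IsUnit (y i) := by
    rw [PowerSeries.isUnit_iff_constantCoeff, hy0]
    exact IsUnit.mk0 _ hi
  have h3 : Matrix.vecMul (Matrix.vecMul y M) M.adjugate i = M.det * y i := by
    rw [Matrix.vecMul_vecMul, Matrix.mul_adjugate, Matrix.vecMul_smul, Matrix.vecMul_one]
    rfl
  rw [← hu.dvd_mul_right, ← h3]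
  change _ ∣ ∑ k, Matrix.vecMul y M k * M.adjugate k i
  refine dvd_sum fun k _ => Dvd.dvd.mul_right ?_ _
  have h4 : Matrix.vecMul y M k = ∑ i, y i * (RR T A P k i : PowerSeries ℚ) := rfl
  rw [h4, hp]
  exact ((pow_dvd_pow _ (by have := k.2; omega)).trans (dvd_iter hg k)).mul_left _

end ZeroAux

open ZeroAux in
theorem zero (h1 : SFund) (h2 : SNon) : SZero := by
  intro r f T A hS c hc hT
  have hT0 : T ≠ 0 := by rintro rfl; simp at hT
  obtain ⟨C₀, hC⟩ := h2 r f T A hS hT0
  obtain ⟨t, htT, htA⟩ : ∃ t, T.natDegree ≤ t ∧ ∀ i j, (A i j).natDegree ≤ t :=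
    ⟨T.natDegree + ∑ i, ∑ j, (A i j).natDegree, Nat.le_add_right _ _, fun i j =>
      ((single_le_sum (f := fun j => (A i j).natDegree) (fun _ _ => Nat.zero_le _)
        (mem_univ j)).trans
        (single_le_sum (f := fun i => ∑ j, (A i j).natDegree) (fun _ _ => Nat.zero_le _)
          (mem_univ i))).trans (Nat.le_add_left _ _)⟩
  refine ⟨C₀ + r + ((r + 1) * (r * t) + r * r), fun n e Q P he hP φ hφ => ?_⟩
  have hΔ := hC n e Q P (by omega) hP
  set Δ := (Matrix.of fun i k : Fin (r + 1) => RR T A P k i).det with hΔd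
  have hdeg : Δ.natDegree ≤ (r + 1) * (n + r * t) := by
    refine deg_det _ fun i k => (deg_RR htT htA hP.2.2.1 k i).trans ?_
    exact Nat.add_le_add_left (Nat.mul_le_mul_right _ (by have := k.2; omega)) _
  have hcop : IsCoprime (X : ℚ[X]) (X - C c) := by
    have := isCoprime_X_sub_C_of_isUnit_sub (a := (0 : ℚ)) (b := c) (by simpa using hc)
    simpa using this
  have hdvd : X ^ (r * (n + e + 1 - r)) * (X - C c) ^ Δ.rootMultiplicity c ∣ Δ :=
    hcop.pow.mul_dvd (det_dvd hS hP) (pow_rootMultiplicity_dvd _ _)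
  have hJ : r * (n + e + 1 - r) + Δ.rootMultiplicity c ≤ Δ.natDegree := by
    have := natDegree_le_of_dvd hdvd hΔ
    rwa [((monic_X.pow _)).natDegree_mul ((monic_X_sub_C c).pow _), natDegree_X_pow,
      natDegree_pow, natDegree_X_sub_C, mul_one] at this
  by_contra hcon
  push Not at hcon
  have hcomp : (Matrix.of fun i k : Fin (r + 1) => RR (T.comp (X + C c))
      (fun i j => (A i j).comp (X + C c)) (fun i => (P i).comp (X + C c)) k i).det =
      Δ.comp (X + C c) := by
    simp only [RR_comp]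
    exact ((Polynomial.compRingHom (X + C c)).map_det
      (Matrix.of fun i k : Fin (r + 1) => RR T A P k i)).symm
  have ho := ord h1 (T.comp (X + C c)) (fun i j => (A i j).comp (X + C c))
    (fun i => (P i).comp (X + C c)) (by simpa [eval_comp] using hT) φ hφ (Δ.rootMultiplicity c)
    fun k hk => by
      obtain ⟨s, hs⟩ : ∃ s, e = s + r := ⟨e - r, by omega⟩
      have e1 : n + e + 1 - r = n + s + 1 := by omega
      rw [e1] at hJ
      have h5 := hcon k (by subst hs; nlinarith)
      simpa [RR_comp, eval_comp] using h5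
  rw [hcomp] at ho
  have hne : Δ.comp (X + C c) ≠ 0 := fun h0 => hΔ (by
    have := congrArg (fun p => p.comp (X - C c)) h0
    simpa [comp_assoc] using this)
  apply pow_rootMultiplicity_not_dvd hne 0
  rw [← rootMultiplicity_eq_rootMultiplicity]
  simpa using ho

end Pool.Agent.MP_c1891a_nt.H21
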