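import Pool.Agent.MP_c1891a_nt.H91.Spec
import Pool.Agent.MP_089fcb_co.H21.DetBound
import Pool.Agent.MP_089fcb_co.H21.ZeroLemma

/-
The determinant method with cubics for lattice points near an analytic arc.
-/

namespace Pool.Agent.MP_c1891a_nt.H91

open Finset

def bpaI : Fin 10 → ℕ := ![0, 1, 0, 2, 1, 0, 3, 2, 1, 0]

def bpaJ : Fin 10 → ℕ := ![0, 0, 1, 0, 1, 2, 0, 1, 2, 3]

def bpaMon (b : Fin 10) (u v : ℝ) : ℝ := u ^ bpaI b * v ^ bpaJ b

theorem bpaI_le (b : Fin 10) : bpaI b ≤ 3 := by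
  fin_cases b <;> simp [bpaI]

theorem bpaJ_le (b : Fin 10) : bpaJ b ≤ 3 := by
  fin_cases b <;> simp [bpaJ]

theorem bpaIJ_inj : ∀ a b : Fin 10, bpaI a = bpaI b → bpaJ a = bpaJ b → a = b := by
  decide

def bpaC (a1 a2 b1 b2 : ℝ) : Matrix (Fin 10) (Fin 10) ℝ :=
  !![1, 0, 0, 0, 0, 0, 0, 0, 0, 0;
     0, a1, a2, 0, 0, 0, 0, 0, 0, 0;
     0, b1, b2, 0, 0, 0, 0, 0, 0, 0;
     0, 0, 0, a1 ^ 2, 2 * a1 * a2, a2 ^ 2, 0, 0, 0, 0;
     0, 0, 0, a1 * b1, a1 * b2 + a2 * b1, a2 * b2, 0, 0, 0, 0;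
     0, 0, 0, b1 ^ 2, 2 * b1 * b2, b2 ^ 2, 0, 0, 0, 0;
     0, 0, 0, 0, 0, 0, a1 ^ 3, 3 * a1 ^ 2 * a2, 3 * a1 * a2 ^ 2, a2 ^ 3;
     0, 0, 0, 0, 0, 0, a1 ^ 2 * b1, a1 ^ 2 * b2 + 2 * a1 * a2 * b1,
       2 * a1 * a2 * b2 + a2 ^ 2 * b1, a2 ^ 2 * b2;
     0, 0, 0, 0, 0, 0, a1 * b1 ^ 2, 2 * a1 * b1 * b2 + a2 * b1 ^ 2,
       a1 * b2 ^ 2 + 2 * a2 * b1 * b2, a2 * b2 ^ 2;
     0, 0, 0, 0, 0, 0, b1 ^ 3, 3 * b1 ^ 2 * b2, 3 * b1 * b2 ^ 2, b2 ^ 3]

theorem bpa_mon_change (a1 a2 b1 b2 u v : ℝ) (a : Fin 10) :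
    bpaMon a (a1 * u + a2 * v) (b1 * u + b2 * v) = ∑ b, bpaC a1 a2 b1 b2 a b * bpaMon b u v := by
  fin_cases a <;> simp [bpaMon, bpaC, bpaI, bpaJ, Fin.sum_univ_succ] <;> ring

theorem bpa_det_change (a1 a2 b1 b2 : ℝ) (u v : Fin 10 → ℝ) :
    (Matrix.of fun a r => bpaMon a (a1 * u r + a2 * v r) (b1 * u r + b2 * v r)).det
      = (bpaC a1 a2 b1 b2).det * (Matrix.of fun a r => bpaMon a (u r) (v r)).det := by
  rw [← Matrix.det_mul]
  congr 1
  ext a r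
  simp only [Matrix.of_apply, Matrix.mul_apply]
  exact bpa_mon_change _ _ _ _ _ _ _

theorem bpa_detC_bound : ∃ K : ℝ, 0 ≤ K ∧ ∀ a1 a2 b1 b2 : ℝ, |a1| ≤ 1 → |a2| ≤ 1 → |b1| ≤ 1 →
    |b2| ≤ 1 → |(bpaC a1 a2 b1 b2).det| ≤ K := by
  have hc : Continuous fun x : Fin 4 → ℝ => (bpaC (x 0) (x 1) (x 2) (x 3)).det := by
    refine Continuous.matrix_det (continuous_matrix fun a b => ?_)
    fin_cases a <;> fin_cases b <;> simp [bpaC] <;> fun_prop
  obtain ⟨K, hK⟩ := (isCompact_closedBall (0 : Fin 4 → ℝ) 1).exists_bound_of_continuousOn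
    hc.continuousOn
  refine ⟨max K 0, le_max_right _ _, fun a1 a2 b1 b2 h1 h2 h3 h4 => ?_⟩
  have := hK ![a1, a2, b1, b2] (by
    rw [mem_closedBall_zero_iff, pi_norm_le_iff_of_nonneg zero_le_one]
    intro i
    fin_cases i <;> simpa)
  exact le_trans (by simpa using this) (le_max_left _ _)

theorem bpa_det_scale (L N : ℝ) (u v : Fin 10 → ℝ) :
    (Matrix.of fun a r => bpaMon a (L * u r) (N * v r)).det
      = (L * N) ^ 10 * (Matrix.of fun a r => bpaMon a (u r) (v r)).det := by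
  have e : (Matrix.of fun a r => bpaMon a (L * u r) (N * v r))
      = Matrix.of fun a r => bpaMon a L N * (Matrix.of fun a r => bpaMon a (u r) (v r)) a r := by
    ext a r
    simp only [Matrix.of_apply, bpaMon]
    ring
  rw [e, Matrix.det_mul_column]
  congr 1
  simp [bpaMon, bpaI, bpaJ, Fin.prod_univ_succ]
  ring

theorem bpa_taylor (I : Set ℝ) (hI : I.OrdConnected) (M x : ℝ) (hx : x ∈ I) (n : ℕ) :
    ∀ f : ℕ → ℝ → ℝ, (∀ k, ∀ t ∈ I, HasDerivAt (f k) (f (k + 1) t) t) →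
      (∀ t ∈ I, |f n t| ≤ M) → ∀ y ∈ I,
      |f 0 y - ∑ m ∈ range n, f m x / (m.factorial : ℝ) * (y - x) ^ m| ≤ M * |y - x| ^ n := by
  induction n with
  | zero =>
    intro f _ hM y hy
    simpa using hM y hy
  | succ n ih =>
    intro f hf hM y hy
    have hM0 : 0 ≤ M := (abs_nonneg _).trans (hM x hx)
    have hsub : Set.uIcc x y ⊆ I := hI.uIcc_subset hx hy
    have hd : ∀ t ∈ Set.uIcc x y, HasDerivWithinAt
        (fun y => f 0 y - ∑ m ∈ range (n + 1), f m x / (m.factorial : ℝ) * (y - x) ^ m)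
        (f 1 t - ∑ m ∈ range n, f (m + 1) x / (m.factorial : ℝ) * (t - x) ^ m)
        (Set.uIcc x y) t := by
      intro t ht
      have h1 : HasDerivAt (fun y => ∑ m ∈ range (n + 1), f m x / (m.factorial : ℝ) * (y - x) ^ m)
          (∑ m ∈ range (n + 1), f m x / (m.factorial : ℝ) * ((m : ℝ) * (t - x) ^ (m - 1) * 1)) t :=
        HasDerivAt.fun_sum fun m _ =>
          (((hasDerivAt_id' t).sub_const x).fun_pow m).const_mul _
      have h2 : ∑ m ∈ range (n + 1), f m x / (m.factorial : ℝ) * ((m : ℝ) * (t - x) ^ (m - 1) * 1)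
          = ∑ m ∈ range n, f (m + 1) x / (m.factorial : ℝ) * (t - x) ^ m := by
        rw [Finset.sum_range_succ']
        simp only [Nat.cast_zero, zero_mul, mul_zero, add_zero]
        refine Finset.sum_congr rfl fun m _ => ?_
        rw [Nat.factorial_succ]
        push_cast
        have : (m.factorial : ℝ) ≠ 0 := by positivity
        field_simp
      rw [h2] at h1
      exact ((hf 0 t (hsub ht)).fun_sub h1).hasDerivWithinAt
    have hb : ∀ t ∈ Set.uIcc x y,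
        ‖f 1 t - ∑ m ∈ range n, f (m + 1) x / (m.factorial : ℝ) * (t - x) ^ m‖
          ≤ M * |y - x| ^ n := by
      intro t ht
      refine (ih (fun k => f (k + 1)) (fun k => hf (k + 1)) hM t (hsub ht)).trans ?_
      exact mul_le_mul_of_nonneg_left
        (pow_le_pow_left₀ (abs_nonneg _) (Set.abs_sub_left_of_mem_uIcc ht) n) hM0
    have := (convex_uIcc x y).norm_image_sub_le_of_norm_hasDerivWithin_le hd hb
      Set.left_mem_uIcc Set.right_mem_uIcc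
    have e : ∑ m ∈ range (n + 1), f m x / (m.factorial : ℝ) * (x - x) ^ m = f 0 x := by
      rw [Finset.sum_range_succ']
      simp
    rw [e, sub_self, sub_zero, Real.norm_eq_abs, Real.norm_eq_abs] at this
    rw [pow_succ, ← mul_assoc]
    exact this

theorem bpa_small (I : Set ℝ) (hI : I.OrdConnected) (δ : ℝ) (hδ : 0 < δ) (k : ℕ) :
    ∀ (f : ℕ → ℝ → ℝ) (t : ℕ → ℝ) (ε : ℝ), (∀ k, ∀ t ∈ I, HasDerivAt (f k) (f (k + 1) t) t) →
      (∀ i < 2 ^ k, t i ∈ I) → (∀ i, i + 1 < 2 ^ k → t i + δ ≤ t (i + 1)) →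
      (∀ i < 2 ^ k, |f 0 (t i)| ≤ ε) → ∃ ξ ∈ I, |f k ξ| ≤ ε * (2 / δ) ^ k := by
  induction k with
  | zero =>
    intro f t ε _ h1 _ h3
    exact ⟨t 0, h1 0 (by simp), by simpa using h3 0 (by simp)⟩
  | succ k ih =>
    intro f t ε hf h1 h2 h3
    have hs : ∀ i : ℕ, ∃ s : ℝ, i < 2 ^ k →
        s ∈ Set.Ioo (t (2 * i)) (t (2 * i + 1)) ∧ |f 1 s| ≤ ε * (2 / δ) := by
      intro i
      by_cases hi : i < 2 ^ k
      · have hi1 : 2 * i + 1 < 2 ^ (k + 1) := by rw [pow_succ]; omega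
        have hg := h2 (2 * i) hi1
        have hsub : Set.Icc (t (2 * i)) (t (2 * i + 1)) ⊆ I :=
          hI.out (h1 _ (by omega)) (h1 _ hi1)
        obtain ⟨s, hs, he⟩ := exists_hasDerivAt_eq_slope (f 0) (f 1)
          (show t (2 * i) < t (2 * i + 1) by linarith)
          (fun z hz => (hf 0 z (hsub hz)).continuousAt.continuousWithinAt)
          (fun z hz => hf 0 z (hsub (Set.Ioo_subset_Icc_self hz)))
        refine ⟨s, fun _ => ⟨hs, ?_⟩⟩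
        have ha := h3 (2 * i) (by omega)
        have hb := h3 (2 * i + 1) hi1
        have hε : 0 ≤ ε := (abs_nonneg _).trans ha
        rw [he, abs_div, abs_of_pos (show 0 < t (2 * i + 1) - t (2 * i) by linarith)]
        calc |f 0 (t (2 * i + 1)) - f 0 (t (2 * i))| / (t (2 * i + 1) - t (2 * i))
            ≤ (ε * 2) / δ := by
              refine div_le_div₀ (by positivity) ?_ hδ (by linarith)
              refine (abs_sub _ _).trans ?_
              linarith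
          _ = ε * (2 / δ) := by ring
      · exact ⟨0, fun h => absurd h hi⟩
    choose s hs using hs
    obtain ⟨ξ, hξ, hb⟩ := ih (fun k => f (k + 1)) s (ε * (2 / δ)) (fun k => hf (k + 1))
      (fun i hi => by
        have hi1 : 2 * i + 1 < 2 ^ (k + 1) := by rw [pow_succ]; omega
        exact hI.out (h1 _ (by omega)) (h1 _ hi1) (Set.Ioo_subset_Icc_self (hs i hi).1))
      (fun i hi => by
        have hi1 : 2 * i + 1 + 1 < 2 ^ (k + 1) := by rw [pow_succ]; omega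
        have ha := (hs i (by omega)).1.2
        have hb := (hs (i + 1) hi).1.1
        have hc := h2 (2 * i + 1) hi1
        have e : 2 * (i + 1) = 2 * i + 1 + 1 := by ring
        rw [e] at hb
        linarith)
      (fun i hi => (hs i hi).2)
    refine ⟨ξ, hξ, hb.trans (le_of_eq ?_)⟩
    ring

/-- the derivatives of the monomials along the arc. -/
noncomputable def bpaD (γ : ℝ → ℝ) (b : Fin 10) (k : ℕ) : ℝ → ℝ :=
  deriv^[k] fun v => bpaMon b (γ v) v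

theorem bpaD_an {γ : ℝ → ℝ} {v : ℝ} (h : AnalyticAt ℝ γ v) (b : Fin 10) (k : ℕ) :
    AnalyticAt ℝ (bpaD γ b k) v := by
  refine AnalyticAt.iterated_deriv ?_ k
  unfold bpaMon
  exact (h.pow _).mul (analyticAt_id.pow _)

theorem bpaD_deriv {γ : ℝ → ℝ} {v : ℝ} (h : AnalyticAt ℝ γ v) (b : Fin 10) (k : ℕ) :
    HasDerivAt (bpaD γ b k) (bpaD γ b (k + 1) v) v := by
  have := (bpaD_an h b k).differentiableAt.hasDerivAt
  unfold bpaD at this ⊢
  rw [Function.iterate_succ']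
  exact this

theorem bpa_bound {γ : ℝ → ℝ} {v₀ : ℝ} (h : AnalyticOnNhd ℝ γ (Set.Icc (-v₀) v₀)) (n : ℕ) :
    ∃ M : ℝ, 0 ≤ M ∧ ∀ k ≤ n, ∀ b, ∀ v ∈ Set.Icc (-v₀) v₀, |bpaD γ b k v| ≤ M := by
  have hc : ContinuousOn (fun v => ∑ k ∈ range (n + 1), ∑ b, |bpaD γ b k v|)
      (Set.Icc (-v₀) v₀) := by
    refine continuousOn_finsetSum _ fun k _ => continuousOn_finsetSum _ fun b _ => ?_
    exact fun v hv => (bpaD_an (h v hv) b k).continuousAt.continuousWithinAt.abs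
  obtain ⟨M, hM⟩ := isCompact_Icc.exists_bound_of_continuousOn hc
  refine ⟨max M 0, le_max_right _ _, fun k hk b v hv => ?_⟩
  have h1 := (le_abs_self _).trans (hM v hv)
  have h2 : ∑ b, |bpaD γ b k v| ≤ ∑ k ∈ range (n + 1), ∑ b, |bpaD γ b k v| :=
    Finset.single_le_sum (f := fun k => ∑ b, |bpaD γ b k v|)
      (fun k _ => Finset.sum_nonneg fun b _ => abs_nonneg _) (Finset.mem_range.2 (by omega))
  have h3 : |bpaD γ b k v| ≤ ∑ b, |bpaD γ b k v| :=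
    Finset.single_le_sum (f := fun b => |bpaD γ b k v|) (fun b _ => abs_nonneg _)
      (Finset.mem_univ b)
  exact h3.trans (h2.trans (h1.trans (le_max_left _ _)))

theorem bpa_sum (w : Fin 10 → ℝ) (x y : ℝ) :
    ∑ i ∈ range 4, ∑ j ∈ range 4, (∑ b, if bpaI b = i ∧ bpaJ b = j then w b else 0) * x ^ i * y ^ j
      = ∑ b, w b * bpaMon b x y := by
  simp_rw [Finset.sum_mul]
  rw [Finset.sum_congr rfl fun i _ => Finset.sum_comm, Finset.sum_comm]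
  refine Finset.sum_congr rfl fun b _ => ?_
  have h1 := bpaI_le b
  have h2 := bpaJ_le b
  rw [Finset.sum_eq_single (bpaI b), Finset.sum_eq_single (bpaJ b)]
  · simp [bpaMon, mul_assoc]
  · intro j _ hj
    simp [Ne.symm hj]
  · intro hj
    exact absurd (Finset.mem_range.2 (by omega)) hj
  · intro i _ hi
    simp [Ne.symm hi]
  · intro hj
    exact absurd (Finset.mem_range.2 (by omega)) hj

theorem bpa_nonvan {γ : ℝ → ℝ} {v₀ : ℝ} (h : AnalyticOnNhd ℝ γ (Set.Icc (-v₀) v₀))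
    (hnv : ∀ v₁ ∈ Set.Icc (-v₀) v₀, ∀ w : ℕ → ℕ → ℝ,
      (∀ᶠ v in nhds v₁, ∑ i ∈ range 4, ∑ j ∈ range 4, w i j * γ v ^ i * v ^ j = 0) →
      ∀ i < 4, ∀ j < 4, w i j = 0) :
    ∃ (r : ℕ) (c₀ : ℝ), 0 < c₀ ∧ ∀ v ∈ Set.Icc (-v₀) v₀, ∀ w : Fin 10 → ℝ, ‖w‖ = 1 →
      ∃ k ≤ r, c₀ ≤ |∑ b, w b * bpaD γ b k v| := by
  have hK : IsCompact (Set.Icc (-v₀) v₀ ×ˢ Metric.sphere (0 : Fin 10 → ℝ) 1) :=
    isCompact_Icc.prod (isCompact_sphere _ _)
  have key := hK.induction_on (p := fun t => ∃ (r : ℕ) (c₀ : ℝ), 0 < c₀ ∧ ∀ z ∈ t,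
      ∃ k ≤ r, c₀ ≤ |∑ b, z.2 b * bpaD γ b k z.1|) ⟨0, 1, one_pos, by simp⟩
    (by
      rintro s t hst ⟨r, c₀, hc, ht⟩
      exact ⟨r, c₀, hc, fun z hz => ht z (hst hz)⟩)
    (by
      rintro s t ⟨r, c₀, hc, hs⟩ ⟨r', c₀', hc', ht⟩
      refine ⟨max r r', min c₀ c₀', lt_min hc hc', ?_⟩
      rintro z (hz | hz)
      · obtain ⟨k, hk, hb⟩ := hs z hz
        exact ⟨k, hk.trans (le_max_left _ _), (min_le_left _ _).trans hb⟩
      · obtain ⟨k, hk, hb⟩ := ht z hz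
        exact ⟨k, hk.trans (le_max_right _ _), (min_le_right _ _).trans hb⟩)
    (by
      rintro ⟨v₁, w⟩ ⟨hv, hw⟩
      have hv : v₁ ∈ Set.Icc (-v₀) v₀ := hv
      have hw : ‖w‖ = 1 := by simpa using hw
      have hex : ∃ k, ∑ b, w b * bpaD γ b k v₁ ≠ 0 := by
        by_contra hcon
        push Not at hcon
        have han : AnalyticAt ℝ (fun v => ∑ b, w b * bpaD γ b 0 v) v₁ :=
          Finset.analyticAt_fun_sum _ fun b _ => analyticAt_const.mul (bpaD_an (h v₁ hv) b 0)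
        have hz : ∀ᶠ v in nhds v₁, ∑ b, w b * bpaD γ b 0 v = 0 := by
          rw [← analyticOrderAt_eq_top (f := fun v => ∑ b, w b * bpaD γ b 0 v),
            ENat.eq_top_iff_forall_ge]
          intro m
          rw [natCast_le_analyticOrderAt_iff_iteratedDeriv_eq_zero han]
          intro i _
          rw [iteratedDeriv_fun_sum (f := fun b v => w b * bpaD γ b 0 v) (fun b _ =>
            (analyticAt_const.mul (bpaD_an (h v₁ hv) b 0)).contDiffAt), ← hcon i]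
          refine Finset.sum_congr rfl fun b _ => ?_
          rw [iteratedDeriv_const_mul_field, iteratedDeriv_eq_iterate]
          rfl
        have h0 := hnv v₁ hv (fun i j => ∑ b, if bpaI b = i ∧ bpaJ b = j then w b else 0) (by
          filter_upwards [hz] with v hv
          exact (bpa_sum w (γ v) v).trans hv)
        have hw0 : w = 0 := by
          funext b
          have h1 := h0 (bpaI b) (by have := bpaI_le b; omega) (bpaJ b)
            (by have := bpaJ_le b; omega)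
          rw [Finset.sum_eq_single b (fun a _ ha => if_neg fun hh => ha (bpaIJ_inj a b hh.1 hh.2))
            (by simp)] at h1
          simpa using h1
        rw [hw0, norm_zero] at hw
        exact zero_ne_one hw
      obtain ⟨k, hk⟩ := hex
      have hc : ContinuousAt (fun z : ℝ × (Fin 10 → ℝ) => |∑ b, z.2 b * bpaD γ b k z.1|)
          (v₁, w) := by
        refine ContinuousAt.abs (tendsto_finsetSum _ fun b _ => ?_)
        refine ContinuousAt.mul (by fun_prop) ?_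
        exact ContinuousAt.comp (f := Prod.fst) (bpaD_an (h v₁ hv) b k).continuousAt
          continuousAt_fst
      have hpos : 0 < |∑ b, w b * bpaD γ b k v₁| := abs_pos.2 hk
      have hev := hc.eventually (lt_mem_nhds (half_lt_self hpos))
      exact ⟨_, mem_nhdsWithin_of_mem_nhds hev, k, _, half_pos hpos,
        fun z hz => ⟨k, le_rfl, le_of_lt hz⟩⟩)
  obtain ⟨r, c₀, hc, hk⟩ := key
  exact ⟨r, c₀, hc, fun v hv w hw => hk (v, w) ⟨hv, by simpa using hw⟩⟩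

theorem bpa_pert {γ : ℝ → ℝ} {v₀ : ℝ} (h : AnalyticOnNhd ℝ γ (Set.Icc (-v₀) v₀)) :
    ∃ M₂ : ℝ, 0 ≤ M₂ ∧ ∀ b, ∀ v ∈ Set.Icc (-v₀) v₀, ∀ u τ : ℝ, |u - γ v| ≤ τ → τ ≤ 1 →
      |bpaMon b u v - bpaMon b (γ v) v| ≤ M₂ * τ := by
  obtain ⟨G, hG⟩ := isCompact_Icc.exists_bound_of_continuousOn h.continuousOn
  refine ⟨3 * (|G| + 1) ^ 3 * (|v₀| + 1) ^ 3, by positivity, fun b v hv u τ hu hτ => ?_⟩
  have h1 : |γ v| ≤ |G| := (hG v hv).trans (le_abs_self _)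
  have h2 : |u| ≤ |G| + 1 := by
    have := abs_sub_abs_le_abs_sub u (γ v)
    linarith
  have h3 : |v| ≤ |v₀| + 1 := by
    have := abs_le.2 hv
    have := le_abs_self v₀
    linarith
  have hG1 : 1 ≤ |G| + 1 := by have := abs_nonneg G; linarith
  have hv1 : 1 ≤ |v₀| + 1 := by have := abs_nonneg v₀; linarith
  have hτ0 : 0 ≤ τ := (abs_nonneg _).trans hu
  have h4 : |u ^ bpaI b - γ v ^ bpaI b| ≤ τ * 3 * (|G| + 1) ^ 3 := by
    refine (abs_pow_sub_pow_le _ _ _).trans ?_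
    have h5 : (max |u| |γ v|) ^ (bpaI b - 1) ≤ (|G| + 1) ^ 3 :=
      (pow_le_pow_left₀ (le_max_of_le_left (abs_nonneg _)) (max_le h2 (by linarith)) _).trans
        (pow_le_pow_right₀ hG1 (by have := bpaI_le b; omega))
    have h6 : (bpaI b : ℝ) ≤ 3 := by exact_mod_cast bpaI_le b
    gcongr
  have h7 : |v ^ bpaJ b| ≤ (|v₀| + 1) ^ 3 := by
    rw [abs_pow]
    exact (pow_le_pow_left₀ (abs_nonneg _) h3 _).trans (pow_le_pow_right₀ hv1 (bpaJ_le b))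
  unfold bpaMon
  rw [← sub_mul, abs_mul]
  calc _ ≤ τ * 3 * (|G| + 1) ^ 3 * (|v₀| + 1) ^ 3 := by gcongr
    _ = _ := by ring

theorem bpa_det_small {γ : ℝ → ℝ} {v₀ : ℝ} (h : AnalyticOnNhd ℝ γ (Set.Icc (-v₀) v₀))
    (M M₂ : ℝ) (hM0 : 0 ≤ M) (hM₂0 : 0 ≤ M₂)
    (hM : ∀ k ≤ 10, ∀ b, ∀ v ∈ Set.Icc (-v₀) v₀, |bpaD γ b k v| ≤ M)
    (ℓ τ x : ℝ) (hℓ0 : 0 < ℓ) (hℓ1 : ℓ ≤ 1) (hτ : τ ≤ ℓ ^ 10) (hx : x ∈ Set.Icc (-v₀) v₀)
    (u v : Fin 10 → ℝ) (hv : ∀ r, v r ∈ Set.Icc (-v₀) v₀) (hvx : ∀ r, |v r - x| ≤ ℓ)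
    (hu : ∀ b r, |bpaMon b (u r) (v r) - bpaMon b (γ (v r)) (v r)| ≤ M₂ * τ) :
    |(Matrix.of fun a r => bpaMon a (u r) (v r)).det|
      ≤ ℓ ^ 45 * ((10 : ℕ).factorial * (11 * M + M₂) ^ 10) := by
  have hρ : 1 ≤ ℓ⁻¹ := one_le_inv₀ hℓ0 |>.2 hℓ1
  have key := Pool.Agent.MP_089fcb_co.H21.det_bound (n := Fin 10) 10 (by simp) ℓ⁻¹ hρ
    (fun b m => bpaD γ b m x / (m.factorial : ℝ)) (fun r => v r - x)
    (Matrix.of fun b r => bpaMon b (u r) (v r)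
      - ∑ m ∈ range 10, bpaD γ b m x / (m.factorial : ℝ) * (v r - x) ^ m)
    (Matrix.of fun a r => bpaMon a (u r) (v r)) (Matrix.of fun _ _ => 11 * M + M₂)
    (by
      intro b r
      simp only [Matrix.of_apply]
      ring)
    (by
      intro b r
      simp only [Matrix.of_apply]
      have h1 : ∀ m ∈ range 10, ℓ⁻¹ ^ m * |bpaD γ b m x / (m.factorial : ℝ) * (v r - x) ^ m|
          ≤ M := by
        intro m hm
        have h2 := hM m (Finset.mem_range.1 hm).le b x hx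
        have h3 : (1 : ℝ) ≤ m.factorial := by exact_mod_cast m.factorial_pos
        have h4 : |bpaD γ b m x / (m.factorial : ℝ)| ≤ M := by
          rw [abs_div, Nat.abs_cast]
          exact (div_le_self (abs_nonneg _) h3).trans h2
        have h5 : |(v r - x) ^ m| ≤ ℓ ^ m := by
          rw [abs_pow]
          exact pow_le_pow_left₀ (abs_nonneg _) (hvx r) m
        rw [abs_mul]
        calc _ ≤ ℓ⁻¹ ^ m * (M * ℓ ^ m) := by gcongr
          _ = M := by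
            rw [inv_pow]
            field_simp
      have h6 := Finset.sum_le_card_nsmul _ _ _ h1
      rw [Finset.card_range, nsmul_eq_mul] at h6
      have h7 := bpa_taylor _ Set.ordConnected_Icc M x hx 10 (bpaD γ b)
        (fun k t ht => bpaD_deriv (h t ht) b k) (hM 10 le_rfl b) (v r) (hv r)
      have h8 : |v r - x| ^ 10 ≤ ℓ ^ 10 := pow_le_pow_left₀ (abs_nonneg _) (hvx r) 10
      have h9 : |bpaMon b (u r) (v r)
          - ∑ m ∈ range 10, bpaD γ b m x / (m.factorial : ℝ) * (v r - x) ^ m|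
          ≤ (M + M₂) * ℓ ^ 10 := by
        have e : bpaD γ b 0 (v r) = bpaMon b (γ (v r)) (v r) := rfl
        rw [e] at h7
        have h10 := abs_sub_le (bpaMon b (u r) (v r)) (bpaMon b (γ (v r)) (v r))
          (∑ m ∈ range 10, bpaD γ b m x / (m.factorial : ℝ) * (v r - x) ^ m)
        have h11 := hu b r
        have h12 := mul_le_mul_of_nonneg_left h8 hM0
        have h13 := mul_le_mul_of_nonneg_left hτ hM₂0
        linarith
      have h14 : ℓ⁻¹ ^ 10 * |bpaMon b (u r) (v r)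
          - ∑ m ∈ range 10, bpaD γ b m x / (m.factorial : ℝ) * (v r - x) ^ m| ≤ M + M₂ := by
        calc _ ≤ ℓ⁻¹ ^ 10 * ((M + M₂) * ℓ ^ 10) := by gcongr
          _ = M + M₂ := by field_simp
      push_cast at h6
      linarith)
  simp only [Matrix.of_apply, Finset.prod_const, Finset.card_univ, Fintype.card_fin,
    Finset.sum_const, Fintype.card_perm, nsmul_eq_mul] at key
  have e : ℓ ^ 45 * ℓ⁻¹ ^ (10 * (10 - 1) / 2) = 1 := by
    norm_num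
    field_simp
  calc _ = ℓ ^ 45 * (ℓ⁻¹ ^ (10 * (10 - 1) / 2) * |(Matrix.of fun a r => bpaMon a (u r) (v r)).det|)
        := by rw [← mul_assoc, e, one_mul]
    _ ≤ _ := mul_le_mul_of_nonneg_left key (by positivity)

theorem bpa_det_zero (K : ℝ) (hK : ∀ a1 a2 b1 b2 : ℝ, |a1| ≤ 1 → |a2| ≤ 1 → |b1| ≤ 1 →
    |b2| ≤ 1 → |(bpaC a1 a2 b1 b2).det| ≤ K) (l₁ l₂ n₁ n₂ L N B : ℝ) (hne : l₁ * n₂ ≠ l₂ * n₁)
    (h1 : |l₁| ≤ L) (h2 : |l₂| ≤ L) (h3 : |n₁| ≤ N) (h4 : |n₂| ≤ N) (u v : Fin 10 → ℝ)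
    (hm : ∀ r, ∃ m : ℤ, l₁ * u r + l₂ * v r = m) (hn : ∀ r, ∃ n : ℤ, n₁ * u r + n₂ * v r = n)
    (hB : |(Matrix.of fun a r => bpaMon a (u r) (v r)).det| ≤ B)
    (hsm : (L * N) ^ 10 * K * B < 1) :
    (Matrix.of fun a r => bpaMon a (u r) (v r)).det = 0 := by
  have hL : 0 < L := by
    by_contra hc
    have e1 : l₁ = 0 := abs_nonpos_iff.1 (by linarith)
    have e2 : l₂ = 0 := abs_nonpos_iff.1 (by linarith)
    exact hne (by rw [e1, e2]; ring)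
  have hN : 0 < N := by
    by_contra hc
    have e1 : n₁ = 0 := abs_nonpos_iff.1 (by linarith)
    have e2 : n₂ = 0 := abs_nonpos_iff.1 (by linarith)
    exact hne (by rw [e1, e2]; ring)
  choose m hm using hm
  choose n hn using hn
  have hdiv : ∀ a T : ℝ, 0 < T → |a| ≤ T → |a / T| ≤ 1 := by
    intro a T hT ha
    rw [abs_div, abs_of_pos hT]
    exact (div_le_one hT).2 ha
  have e1 : (Matrix.of fun a r => bpaMon a (m r : ℝ) (n r : ℝ)).det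
      = (L * N) ^ 10 * ((bpaC (l₁ / L) (l₂ / L) (n₁ / N) (n₂ / N)).det
        * (Matrix.of fun a r => bpaMon a (u r) (v r)).det) := by
    rw [← bpa_det_change, ← bpa_det_scale]
    congr 1
    ext a r
    simp only [Matrix.of_apply]
    rw [← hm r, ← hn r]
    congr 1 <;> field_simp
  have e2 : (Matrix.of fun a r => bpaMon a (m r : ℝ) (n r : ℝ)).det
      = ((Matrix.of fun a r => m r ^ bpaI a * n r ^ bpaJ a).det : ℤ) := by
    rw [Int.cast_det]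
    congr 1
    ext a r
    simp [bpaMon]
  have h5 : |(Matrix.of fun a r => bpaMon a (m r : ℝ) (n r : ℝ)).det| < 1 := by
    rw [e1, abs_mul, abs_mul, abs_of_nonneg (show 0 ≤ (L * N) ^ 10 by positivity)]
    have h6 := hK _ _ _ _ (hdiv _ _ hL h1) (hdiv _ _ hL h2) (hdiv _ _ hN h3) (hdiv _ _ hN h4)
    have h7 : 0 ≤ K := (abs_nonneg _).trans h6
    refine lt_of_le_of_lt ?_ hsm
    rw [mul_assoc]
    gcongr
  have h8 : (Matrix.of fun a r => bpaMon a (m r : ℝ) (n r : ℝ)).det = 0 := by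
    rw [e2] at h5 ⊢
    have : |(Matrix.of fun a r => m r ^ bpaI a * n r ^ bpaJ a).det| < 1 := by exact_mod_cast h5
    exact_mod_cast Int.abs_lt_one_iff.1 this
  have hD : l₁ * n₂ - l₂ * n₁ ≠ 0 := sub_ne_zero.2 hne
  have e3 := bpa_det_change (n₂ / (l₁ * n₂ - l₂ * n₁)) (-l₂ / (l₁ * n₂ - l₂ * n₁))
    (-n₁ / (l₁ * n₂ - l₂ * n₁)) (l₁ / (l₁ * n₂ - l₂ * n₁)) (fun r => m r) (fun r => n r)
  rw [h8, mul_zero] at e3
  rw [← e3]
  congr 1
  ext a r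
  simp only [Matrix.of_apply]
  rw [← hm r, ← hn r]
  have hD' := mul_inv_cancel₀ hD
  congr 1
  · linear_combination (-u r) * hD'
  · linear_combination (-v r) * hD'

theorem bpa_core {γ : ℝ → ℝ} {v₀ : ℝ} (h : AnalyticOnNhd ℝ γ (Set.Icc (-v₀) v₀))
    (r : ℕ) (c₀ M M₂ : ℝ) (hM0 : 0 ≤ M) (hM₂0 : 0 ≤ M₂)
    (hc : ∀ v ∈ Set.Icc (-v₀) v₀, ∀ w : Fin 10 → ℝ, ‖w‖ = 1 →
      ∃ k ≤ r, c₀ ≤ |∑ b, w b * bpaD γ b k v|)
    (hM : ∀ k ≤ r + 1, ∀ b, ∀ v ∈ Set.Icc (-v₀) v₀, |bpaD γ b k v| ≤ M)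
    (ℓ τ δ : ℝ) (hδ0 : 0 < δ) (hδ : δ ≤ 2) (hτ0 : 0 ≤ τ)
    (hsm : 10 * M * ℓ + 10 * (M₂ * τ) * (2 / δ) ^ r < c₀) (S : Finset (ℝ × ℝ))
    (hS : ∀ q ∈ S, q.2 ∈ Set.Icc (-v₀) v₀)
    (hu : ∀ b, ∀ q ∈ S, |bpaMon b q.1 q.2 - bpaMon b (γ q.2) q.2| ≤ M₂ * τ)
    (hsep : ∀ q ∈ S, ∀ q' ∈ S, q ≠ q' → δ ≤ |q.2 - q'.2|)
    (hnear : ∀ q ∈ S, ∀ q' ∈ S, |q.2 - q'.2| ≤ ℓ)
    (hdet : ∀ f : Fin 10 → ℝ × ℝ, (∀ i, f i ∈ S) →
      (Matrix.of fun a i => bpaMon a (f i).1 (f i).2).det = 0) :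
    S.card ≤ 2 ^ r := by
  classical
  by_contra hcard
  push Not at hcard
  obtain ⟨q₀, hq₀⟩ : S.Nonempty := Finset.card_pos.1 ((Nat.zero_le _).trans_lt hcard)
  have hex : ∃ w₀ : Fin 10 → ℝ, (∀ q : S, ∑ b, w₀ b * bpaMon b q.1.1 q.1.2 = 0) ∧ w₀ ≠ 0 := by
    by_contra hcon
    push Not at hcon
    obtain ⟨f, -, hf⟩ := Pool.Agent.MP_089fcb_co.H21.exists_minor
      (Matrix.of fun (b : Fin 10) (q : S) => bpaMon b q.1.1 q.1.2)
      (fun v hv i => congrFun (hcon v hv) i)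
    exact hf (hdet (fun i => (f i).1) fun i => (f i).2)
  obtain ⟨w₀, hw₀, hw₀ne⟩ := hex
  have hn0 : 0 < ‖w₀‖ := norm_pos_iff.2 hw₀ne
  set w : Fin 10 → ℝ := ‖w₀‖⁻¹ • w₀ with hwdef
  have hw1 : ‖w‖ = 1 := by
    rw [hwdef, norm_smul, norm_inv, norm_norm, inv_mul_cancel₀ hn0.ne']
  have hwb : ∀ b, |w b| ≤ 1 := fun b => (norm_le_pi_norm w b).trans hw1.le
  have hw : ∀ q ∈ S, ∑ b, w b * bpaMon b q.1 q.2 = 0 := by
    intro q hq
    have := hw₀ ⟨q, hq⟩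
    simp only [hwdef, Pi.smul_apply, smul_eq_mul, mul_assoc]
    rw [← Finset.mul_sum, this, mul_zero]
  have hsum : ∀ (g : Fin 10 → ℝ) (T : ℝ), (∀ b, |g b| ≤ T) → |∑ b, w b * g b| ≤ 10 * T := by
    intro g T hg
    refine (Finset.abs_sum_le_sum_abs _ _).trans ?_
    have := Finset.sum_le_card_nsmul univ (fun b => |w b * g b|) T (fun b _ => by
      rw [abs_mul]
      exact (mul_le_of_le_one_left (abs_nonneg _) (hwb b)).trans (hg b))
    simpa using this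
  let F : ℕ → ℝ → ℝ := fun k v => ∑ b, w b * bpaD γ b k v
  have hF : ∀ k, ∀ t ∈ Set.Icc (-v₀) v₀, HasDerivAt (F k) (F (k + 1) t) t := fun k t ht =>
    HasDerivAt.fun_sum fun b _ => (bpaD_deriv (h t ht) b k).const_mul _
  have hinj : Set.InjOn Prod.snd (S : Set (ℝ × ℝ)) := by
    intro q hq q' hq' he
    by_contra hne
    have := hsep q hq q' hq' hne
    rw [he, sub_self, abs_zero] at this
    linarith
  set V := S.image Prod.snd with hV
  have hVc : V.card = S.card := Finset.card_image_of_injOn hinj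
  let e := V.orderEmbOfFin hVc
  let t : ℕ → ℝ := fun i => if hi : i < S.card then e ⟨i, hi⟩ else 0
  have ht : ∀ i, i < S.card → ∃ q ∈ S, q.2 = t i := by
    intro i hi
    have := V.orderEmbOfFin_mem hVc ⟨i, hi⟩
    simp only [t, dif_pos hi]
    exact Finset.mem_image.1 this
  have htlt : ∀ i, i + 1 < S.card → t i < t (i + 1) := by
    intro i hi
    simp only [t, dif_pos hi, dif_pos (show i < S.card by omega)]
    exact e.strictMono (by simp [Fin.lt_def])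
  obtain ⟨k, hk, hck⟩ := hc q₀.2 (hS q₀ hq₀) w hw1
  have hkr : 2 ^ k ≤ 2 ^ r := Nat.pow_le_pow_right (by norm_num) hk
  obtain ⟨ξ, ⟨hξ1, hξ2⟩, hξ⟩ := bpa_small (Set.Icc (-v₀) v₀ ∩ Set.Icc (q₀.2 - ℓ) (q₀.2 + ℓ))
    (Set.ordConnected_Icc.inter Set.ordConnected_Icc) δ hδ0 k F t (10 * (M₂ * τ))
    (fun k t ht => hF k t ht.1)
    (fun i hi => by
      obtain ⟨q, hq, he⟩ := ht i (by omega)
      have := abs_le.1 (hnear q hq q₀ hq₀)
      rw [← he]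
      exact ⟨hS q hq, by linarith, by linarith⟩)
    (fun i hi => by
      obtain ⟨q, hq, he⟩ := ht i (by omega)
      obtain ⟨q', hq', he'⟩ := ht (i + 1) (by omega)
      have h1 := htlt i (by omega)
      have h2 := hsep q' hq' q hq (fun hh => by rw [← he, ← he', hh] at h1; exact lt_irrefl _ h1)
      rw [he, he', abs_of_pos (by linarith)] at h2
      linarith)
    (fun i hi => by
      obtain ⟨q, hq, he⟩ := ht i (by omega)
      rw [← he]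
      have e1 : F 0 q.2 = ∑ b, w b * (bpaMon b (γ q.2) q.2 - bpaMon b q.1 q.2) := by
        simp only [mul_sub, Finset.sum_sub_distrib, hw q hq, sub_zero]
        rfl
      rw [e1]
      exact hsum _ _ fun b => by rw [abs_sub_comm]; exact hu b q hq)
  have h1 := bpa_taylor _ Set.ordConnected_Icc (10 * M) ξ hξ1 1 (fun j => F (k + j))
    (fun j => hF (k + j)) (fun t ht => hsum _ _ fun b => hM (k + 1) (by omega) b t ht)
    q₀.2 (hS q₀ hq₀)
  simp only [Finset.range_one, Finset.sum_singleton, add_zero, Nat.factorial_zero, Nat.cast_one,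
    div_one, pow_zero, mul_one, pow_one] at h1
  have h2 : |q₀.2 - ξ| ≤ ℓ := abs_le.2 ⟨by linarith [hξ2.2], by linarith [hξ2.1]⟩
  have h3 : (2 / δ) ^ k ≤ (2 / δ) ^ r := pow_le_pow_right₀ ((one_le_div hδ0).2 hδ) hk
  have h4 := abs_sub_abs_le_abs_sub (F k q₀.2) (F k ξ)
  have h5 := mul_le_mul_of_nonneg_left h2 (show 0 ≤ 10 * M by positivity)
  have h6 := mul_le_mul_of_nonneg_left h3 (show 0 ≤ 10 * (M₂ * τ) by positivity)
  have h7 : c₀ ≤ |F k q₀.2| := hck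
  linarith

theorem bpa : SBPa := by
  classical
  intro γ v₀ h hnv C₁ hC₁
  obtain ⟨r, c₀, hc₀, hc⟩ := bpa_nonvan h hnv
  obtain ⟨M, hM0, hM⟩ := bpa_bound h (r + 10)
  obtain ⟨M₂, hM₂0, hM₂⟩ := bpa_pert h
  obtain ⟨K, hK0, hK⟩ := bpa_detC_bound
  obtain ⟨W, hW⟩ : ∃ W : ℝ, W = (10 : ℕ).factorial * (11 * M + M₂) ^ 10 := ⟨_, rfl⟩
  have hW0 : 0 ≤ W := by rw [hW]; positivity
  obtain ⟨Q, hQ⟩ : ∃ Q : ℝ, Q = C₁ ^ 10 * K * W + 1 := ⟨_, rfl⟩
  have hQ1 : 1 ≤ Q := by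
    have : 0 ≤ C₁ ^ 10 * K * W := by positivity
    linarith
  obtain ⟨T, hT⟩ : ∃ T : ℝ, T = Q ^ 10 + (10 * M + 10 * M₂ * 2 ^ r) / c₀ + 1 := ⟨_, rfl⟩
  have hQ10 : 1 ≤ Q ^ 10 := one_le_pow₀ hQ1
  have hT0 : 0 ≤ (10 * M + 10 * M₂ * 2 ^ r) / c₀ := by positivity
  refine ⟨2 ^ r * (2 * |v₀| * Q + 1), r + 3, T ^ 9, ?_⟩
  intro p hp l₁ l₂ n₁ n₂ L N hne h1 h2 h3 h4 hLN S hS hsep
  have hT1 : 1 ≤ T := by linarith
  have hp1 : 1 ≤ p := (one_le_pow₀ hT1).trans hp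
  obtain ⟨s, hs0, hs⟩ : ∃ s : ℝ, 0 ≤ s ∧ s ^ 9 = p :=
    ⟨p ^ ((9 : ℕ) : ℝ)⁻¹, by positivity, Real.rpow_inv_natCast_pow (by linarith) (by norm_num)⟩
  have hTs : T ≤ s := by
    rw [← hs] at hp
    exact le_of_pow_le_pow_left₀ (by norm_num) hs0 hp
  have hs1 : 1 ≤ s := hT1.trans hTs
  have hs2 : p ^ (2 / 9 : ℝ) = s ^ 2 := by
    rw [← hs, ← Real.rpow_natCast, ← Real.rpow_mul hs0, ← Real.rpow_natCast]
    norm_num
  have hss : 1 ≤ s ^ 2 := one_le_pow₀ hs1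
  obtain ⟨ℓ, hℓ⟩ : ∃ ℓ : ℝ, ℓ = (Q * s ^ 2)⁻¹ := ⟨_, rfl⟩
  have hQs : 1 ≤ Q * s ^ 2 := one_le_mul_of_one_le_of_one_le hQ1 hss
  have hℓ0 : 0 < ℓ := by rw [hℓ]; positivity
  have hℓ1 : ℓ ≤ 1 := by rw [hℓ]; exact inv_le_one_of_one_le₀ hQs
  have hτ : (p ^ (r + 3))⁻¹ ≤ ℓ ^ 10 := by
    rw [hℓ, inv_pow]
    refine inv_anti₀ (by positivity) ?_
    calc (Q * s ^ 2) ^ 10 = Q ^ 10 * s ^ 20 := by ring
      _ ≤ s * s ^ 20 := by
          have : Q ^ 10 ≤ s := by linarith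
          gcongr
      _ = s ^ 21 := by ring
      _ ≤ s ^ (9 * (r + 3)) := pow_le_pow_right₀ hs1 (by omega)
      _ = p ^ (r + 3) := by rw [pow_mul, hs]
  have hτ1 : (p ^ (r + 3))⁻¹ ≤ 1 := hτ.trans (pow_le_one₀ hℓ0.le hℓ1)
  have hL0 : 0 ≤ L := (abs_nonneg _).trans h1
  have hN0 : 0 ≤ N := (abs_nonneg _).trans h3
  have hsm1 : (L * N) ^ 10 * K * (ℓ ^ 45 * W) < 1 := by
    have e1 : (L * N) ^ 10 ≤ (C₁ * p) ^ 10 := pow_le_pow_left₀ (by positivity) hLN 10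
    have e2 : Q ≤ Q ^ 45 := le_self_pow₀ hQ1 (by norm_num)
    calc (L * N) ^ 10 * K * (ℓ ^ 45 * W) ≤ (C₁ * p) ^ 10 * K * (ℓ ^ 45 * W) := by gcongr
      _ = C₁ ^ 10 * K * W / Q ^ 45 := by
          rw [hℓ, ← hs]
          field_simp
      _ < 1 := by
          rw [div_lt_one (by positivity)]
          linarith
  have hsm2 : 10 * M * ℓ + 10 * (M₂ * (p ^ (r + 3))⁻¹) * (2 / p⁻¹) ^ r < c₀ := by
    have e1 : ℓ ≤ s⁻¹ := by
      rw [hℓ]
      refine inv_anti₀ (by linarith) ?_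
      calc s ≤ s ^ 2 := le_self_pow₀ hs1 (by norm_num)
        _ ≤ Q * s ^ 2 := le_mul_of_one_le_left (by positivity) hQ1
    have e2 : (p ^ 3)⁻¹ ≤ s⁻¹ := by
      refine inv_anti₀ (by linarith) ?_
      rw [← hs, ← pow_mul]
      exact le_self_pow₀ hs1 (by norm_num)
    have e3 : 10 * (M₂ * (p ^ (r + 3))⁻¹) * (2 / p⁻¹) ^ r = 10 * M₂ * 2 ^ r * (p ^ 3)⁻¹ := by
      rw [div_inv_eq_mul, mul_pow, pow_add]
      field_simp
    have e4 : (10 * M + 10 * M₂ * 2 ^ r) / c₀ < s := by linarith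
    rw [div_lt_iff₀ hc₀] at e4
    rw [e3]
    calc 10 * M * ℓ + 10 * M₂ * 2 ^ r * (p ^ 3)⁻¹ ≤ 10 * M * s⁻¹ + 10 * M₂ * 2 ^ r * s⁻¹ := by
          gcongr
      _ = (10 * M + 10 * M₂ * 2 ^ r) / s := by ring
      _ < c₀ := by
          rw [div_lt_iff₀ (by linarith)]
          linarith
  have hI : ∀ q ∈ S, q.2 ∈ Set.Icc (-v₀) v₀ := fun q hq => abs_le.1 (hS q hq).1
  have hcount := Finset.card_le_mul_card_image_of_maps_to (s := S)
    (t := range (⌊2 * |v₀| / ℓ⌋₊ + 1)) (f := fun q => ⌊(q.2 + v₀) / ℓ⌋₊)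
    (fun q hq => by
      rw [Finset.mem_range, Nat.lt_succ_iff]
      refine Nat.floor_le_floor (div_le_div_of_nonneg_right ?_ hℓ0.le)
      have := (hI q hq).2
      have := le_abs_self v₀
      linarith) (2 ^ r)
    (fun j _ => by
      have hnear : ∀ q ∈ S.filter (fun q => ⌊(q.2 + v₀) / ℓ⌋₊ = j),
          ∀ q' ∈ S.filter (fun q => ⌊(q.2 + v₀) / ℓ⌋₊ = j), |q.2 - q'.2| ≤ ℓ := by
        have aux : ∀ q ∈ S.filter (fun q => ⌊(q.2 + v₀) / ℓ⌋₊ = j),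
            j * ℓ ≤ q.2 + v₀ ∧ q.2 + v₀ ≤ (j + 1) * ℓ := by
          intro q hq
          obtain ⟨hq, he⟩ := Finset.mem_filter.1 hq
          have h5 : 0 ≤ (q.2 + v₀) / ℓ := div_nonneg (by linarith [(hI q hq).1]) hℓ0.le
          have h6 := Nat.floor_le h5
          have h7 := Nat.lt_floor_add_one ((q.2 + v₀) / ℓ)
          rw [he] at h6 h7
          exact ⟨(le_div_iff₀ hℓ0).1 h6, ((div_lt_iff₀ hℓ0).1 h7).le⟩
        intro q hq q' hq'
        have := aux q hq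
        have := aux q' hq'
        exact abs_le.2 ⟨by linarith, by linarith⟩
      have hpert : ∀ b, ∀ q ∈ S, |bpaMon b q.1 q.2 - bpaMon b (γ q.2) q.2|
          ≤ M₂ * (p ^ (r + 3))⁻¹ := fun b q hq => hM₂ b q.2 (hI q hq) q.1 _ (hS q hq).2.1 hτ1
      refine bpa_core h r c₀ M M₂ hM0 hM₂0 hc (fun k hk => hM k (by omega)) ℓ (p ^ (r + 3))⁻¹ p⁻¹
        (by positivity) ((inv_le_one_of_one_le₀ hp1).trans one_le_two) (by positivity) hsm2 _
        (fun q hq => hI q (Finset.mem_filter.1 hq).1)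
        (fun b q hq => hpert b q (Finset.mem_filter.1 hq).1)
        (fun q hq q' hq' => hsep q (Finset.mem_filter.1 hq).1 q' (Finset.mem_filter.1 hq').1)
        hnear fun f hf => ?_
      have hfS : ∀ i, f i ∈ S := fun i => (Finset.mem_filter.1 (hf i)).1
      exact bpa_det_zero K hK l₁ l₂ n₁ n₂ L N (ℓ ^ 45 * W) hne h1 h2 h3 h4 _ _
        (fun i => (hS _ (hfS i)).2.2.1) (fun i => (hS _ (hfS i)).2.2.2)
        (hW ▸ bpa_det_small h M M₂ hM0 hM₂0 (fun k hk => hM k (by omega)) ℓ _ (f 0).2 hℓ0 hℓ1 hτ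
          (hI _ (hfS 0)) _ _ (fun i => hI _ (hfS i)) (fun i => hnear _ (hf i) _ (hf 0))
          (fun b i => hpert b _ (hfS i))) hsm1)
  rw [Finset.card_range] at hcount
  have h5 : (S.card : ℝ) ≤ 2 ^ r * ((⌊2 * |v₀| / ℓ⌋₊ : ℝ) + 1) := by exact_mod_cast hcount
  have h6 : (⌊2 * |v₀| / ℓ⌋₊ : ℝ) ≤ 2 * |v₀| * Q * s ^ 2 := by
    refine (Nat.floor_le (by positivity)).trans (le_of_eq ?_)
    rw [hℓ, div_inv_eq_mul]
    ring
  rw [hs2]
  calc (S.card : ℝ) ≤ 2 ^ r * (2 * |v₀| * Q * s ^ 2 + s ^ 2) := h5.trans (by gcongr)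
    _ = _ := by ring

end Pool.Agent.MP_c1891a_nt.H91
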